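import Pool.Agent.Q99.JTS.Q1
import Pool.Agent.Q99.JTS.Exist

/-!
# Every non-reflexive subspace of the dual of the James tree space contains the dual of the James space
-/

set_option autoImplicit false

namespace Pool.Agent.Results.MP_245e03_an.NonReflexive

open Q99.JTS

/-- `jtNorm` and `jNorm` are the norms of the James tree space (on the dyadic tree of finite `0`-`1` sequences) and
of the James space; `IsCompletion N X e` says that `X` is the Banach space completion of the finitely supported
functions with the norm `N`. Both completions exist. If `X` is the James tree space and `Z` the James space, then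
every closed subspace of the dual of `X` which is not reflexive contains a subspace isomorphic to the dual
of `Z`. -/
theorem result : HasCompletion jtNorm ∧ HasCompletion jNorm ∧
    ∀ (X : Type) [NormedAddCommGroup X] [NormedSpace ℝ X] (e : (List Bool →₀ ℝ) →ₗ[ℝ] X),
      IsCompletion jtNorm X e →
    ∀ (Z : Type) [NormedAddCommGroup Z] [NormedSpace ℝ Z] (e' : (ℕ →₀ ℝ) →ₗ[ℝ] Z),
      IsCompletion jNorm Z e' → NonReflexiveContain (StrongDual ℝ X) (StrongDual ℝ Z) := by
  refine ⟨exists_JT, exists_J, ?_⟩
  intro X _ _ e hX Z _ _ e' hZ Y hY hr
  have : CompleteSpace Y := hY.completeSpace_coe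
  exact @q1_general X _ _ e hX Y inferInstance inferInstance this Y.subtypeL 1 one_pos
    (fun y => (one_mul ‖y‖).le) hr Z _ _ e' hZ

end Pool.Agent.Results.MP_245e03_an.NonReflexive
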